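import Mathlib

/-!
Filtration, parity and supercommutativity in an exterior algebra.
-/

set_option autoImplicit false

namespace Pool.Agent.H6Z.Grass

open ExteriorAlgebra

variable {F : Type*} [Field F] {L : Type*} [AddCommGroup L] [Module F L]

/-- the canonical involution -/
noncomputable abbrev sg : ExteriorAlgebra F L →ₐ[F] ExteriorAlgebra F L := CliffordAlgebra.involute

theorem sg_ι (v : L) : sg (ι F v) = - ι F v := CliffordAlgebra.involute_ι v

theorem sg_sg (y : ExteriorAlgebra F L) : sg (sg y) = y := CliffordAlgebra.involute_involute y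

theorem ι_mul_ι (v w : L) : ι F v * ι F w = - (ι F w * ι F v) :=
  eq_neg_of_add_eq_zero_left (ι_add_mul_swap v w)

theorem ι_mul (v : L) (y : ExteriorAlgebra F L) : ι F v * y = sg y * ι F v := by
  induction y using ExteriorAlgebra.induction with
  | algebraMap r => rw [AlgHom.commutes, Algebra.commutes]
  | ι w => rw [sg_ι, ι_mul_ι, neg_mul]
  | mul a b ha hb => rw [← mul_assoc, ha, mul_assoc, hb, map_mul, mul_assoc]
  | add a b ha hb => rw [mul_add, ha, hb, map_add, add_mul]

theorem mul_ι (v : L) (y : ExteriorAlgebra F L) : y * ι F v = ι F v * sg y := by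
  rw [ι_mul, sg_sg]

/-- the image of a subspace of generators -/
noncomputable def P (W : Submodule F L) : Submodule F (ExteriorAlgebra F L) := W.map (ι F)

theorem P_mono {W W' : Submodule F L} (h : W ≤ W') : P W ≤ P W' := Submodule.map_mono h

theorem top_mul_top : (⊤ : Submodule F (ExteriorAlgebra F L)) * ⊤ = ⊤ := by
  refine eq_top_iff.2 fun y _ => ?_
  have := Submodule.mul_mem_mul (Submodule.mem_top (R := F) (x := y))
    (Submodule.mem_top (R := F) (x := (1 : ExteriorAlgebra F L)))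
  rwa [mul_one] at this

theorem le_mul_top (X : Submodule F (ExteriorAlgebra F L)) : X ≤ X * ⊤ := fun y hy => by
  have := Submodule.mul_mem_mul hy (Submodule.mem_top (R := F) (x := (1 : ExteriorAlgebra F L)))
  rwa [mul_one] at this

theorem commute_P_top (W : Submodule F L) : Commute (P W) ⊤ := by
  apply le_antisymm
  · refine Submodule.mul_le.2 ?_
    rintro _ ⟨w, hw, rfl⟩ y -
    rw [ι_mul]
    exact Submodule.mul_mem_mul trivial ⟨w, hw, rfl⟩
  · refine Submodule.mul_le.2 ?_
    rintro y - _ ⟨w, hw, rfl⟩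
    rw [mul_ι]
    exact Submodule.mul_mem_mul ⟨w, hw, rfl⟩ trivial

theorem commute_P_P (W W' : Submodule F L) : Commute (P W) (P W') := by
  have : ∀ W W' : Submodule F L, P W * P W' ≤ P W' * P W := fun W W' => by
    refine Submodule.mul_le.2 ?_
    rintro _ ⟨w, hw, rfl⟩ _ ⟨w', hw', rfl⟩
    rw [ι_mul_ι]
    exact Submodule.neg_mem _ (Submodule.mul_mem_mul ⟨w', hw', rfl⟩ ⟨w, hw, rfl⟩)
  exact le_antisymm (this _ _) (this _ _)

theorem P_nilpotent {W : Submodule F L} (hW : W.FG) : IsNilpotent (P W) := by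
  refine Submodule.fg_induction (motive := fun W _ => IsNilpotent (P W)) (fun v => ?_)
    (fun W W' _ _ h h' => ?_) W hW
  · refine ⟨2, ?_⟩
    rw [pow_two, P, Submodule.map_span, Set.image_singleton, Submodule.span_mul_span]
    simp
  · have : P (W ⊔ W') = P W + P W' := Submodule.map_sup _ _ _
    rw [this]
    exact (commute_P_P W W').isNilpotent_add h h'

/-- the filtration by degree -/
noncomputable def Fil (k : ℕ) : Submodule F (ExteriorAlgebra F L) := P ⊤ ^ k * ⊤

theorem Fil_zero : Fil (F := F) (L := L) 0 = ⊤ := by rw [Fil, pow_zero, one_mul]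

theorem mem_Fil_zero (y : ExteriorAlgebra F L) : y ∈ Fil 0 := by rw [Fil_zero]; trivial

theorem Fil_mul_Fil (i j : ℕ) : Fil (F := F) (L := L) i * Fil j = Fil (i + j) := by
  have h := ((commute_P_top (F := F) (⊤ : Submodule F L)).pow_left j).eq
  rw [Fil, Fil, Fil, pow_add, mul_assoc, ← mul_assoc ⊤, ← h, mul_assoc, top_mul_top, mul_assoc]

theorem mul_mem_Fil {i j : ℕ} {a b : ExteriorAlgebra F L} (ha : a ∈ Fil i) (hb : b ∈ Fil j) :
    a * b ∈ Fil (i + j) := Fil_mul_Fil (F := F) (L := L) i j ▸ Submodule.mul_mem_mul ha hb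

theorem mul_mem_Fil' {i j k : ℕ} {a b : ExteriorAlgebra F L} (ha : a ∈ Fil i) (hb : b ∈ Fil j)
    (h : i + j = k) : a * b ∈ Fil k := h ▸ mul_mem_Fil ha hb

theorem ι_mem_Fil (v : L) : ι F v ∈ Fil 1 := by
  rw [Fil, pow_one]
  exact le_mul_top _ ⟨v, trivial, rfl⟩

theorem Fil_succ (k : ℕ) : Fil (F := F) (L := L) (k + 1) = P ⊤ * Fil k := by
  rw [Fil, Fil, pow_succ', mul_assoc]

@[elab_as_elim]
theorem Fil_succ_induction {k : ℕ} {C : ExteriorAlgebra F L → Prop} {y : ExteriorAlgebra F L}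
    (hy : y ∈ Fil (k + 1)) (h1 : ∀ v z, z ∈ Fil k → C (ι F v * z))
    (h2 : ∀ a b, C a → C b → C (a + b)) : C y := by
  rw [Fil_succ] at hy
  refine Submodule.mul_induction_on hy ?_ h2
  rintro _ ⟨v, -, rfl⟩ z hz
  exact h1 v z hz

theorem Fil_anti {k : ℕ} {y : ExteriorAlgebra F L} (hy : y ∈ Fil (k + 1)) : y ∈ Fil k :=
  Fil_succ_induction hy (fun v _ hz => mul_mem_Fil' (mem_Fil_zero (ι F v)) hz (zero_add k))
    fun _ _ => Submodule.add_mem _

theorem eq_zero_of_Fil {y : ExteriorAlgebra F L} (h : ∀ k, y ∈ Fil k) : y = 0 := by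
  have key : ∀ n, (DirectSum.decompose (fun i : ℕ => ⋀[F]^i L) y n : ExteriorAlgebra F L) = 0 := by
    intro n
    have hy := h (n + 1)
    rw [Fil] at hy
    refine Submodule.mul_induction_on hy (fun a ha b _ => ?_) (fun a b ha hb => ?_)
    · refine DirectSum.coe_decompose_mul_of_left_mem_of_not_le (fun i : ℕ => ⋀[F]^i L)
        (i := n + 1) ?_ (by omega)
      rwa [P, Submodule.map_top] at ha
    · rw [DirectSum.decompose_add, DirectSum.add_apply, Submodule.coe_add, ha, hb, add_zero]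
  have : DirectSum.decompose (fun i : ℕ => ⋀[F]^i L) y = 0 := by
    ext n
    simpa using key n
  exact (DirectSum.decompose (fun i : ℕ => ⋀[F]^i L)).injective (by rw [this]; simp)

theorem aug_ι (v : L) : algebraMapInv (ι F v) = 0 := by simp [algebraMapInv]

theorem aug_of_mem {y : ExteriorAlgebra F L} (hy : y ∈ Fil 1) : algebraMapInv y = 0 :=
  Fil_succ_induction hy (fun v z _ => by rw [map_mul, aug_ι, zero_mul])
    fun a b ha hb => by rw [map_add, ha, hb, add_zero]

theorem sub_aug_mem (y : ExteriorAlgebra F L) : y - algebraMap F _ (algebraMapInv y) ∈ Fil 1 := by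
  induction y using CliffordAlgebra.left_induction with
  | algebraMap r => rw [algebraMap_leftInverse L r, sub_self]; exact Submodule.zero_mem _
  | add a b ha hb =>
    rw [map_add, map_add, ← sub_add_sub_comm]; exact Submodule.add_mem _ ha hb
  | ι_mul x v _ =>
    rw [map_mul, aug_ι, zero_mul, map_zero, sub_zero]
    exact mul_mem_Fil' (ι_mem_Fil v) (mem_Fil_zero x) rfl

theorem mem_of_aug {y : ExteriorAlgebra F L} (hy : algebraMapInv y = 0) : y ∈ Fil 1 := by
  simpa [hy] using sub_aug_mem y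

theorem aug_map (θ : ExteriorAlgebra F L →ₐ[F] ExteriorAlgebra F L) (y : ExteriorAlgebra F L) :
    algebraMapInv (θ y) = algebraMapInv y := by
  have : (algebraMapInv (R := F) (M := L)).comp θ = algebraMapInv := by
    ext v
    have h : algebraMapInv (θ (ι F v)) * algebraMapInv (θ (ι F v)) = 0 := by
      rw [← map_mul, ← map_mul, ι_sq_zero, map_zero, map_zero]
    simpa [aug_ι] using h
  exact DFunLike.congr_fun this y

theorem map_mem_Fil (θ : ExteriorAlgebra F L →ₐ[F] ExteriorAlgebra F L) {k : ℕ}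
    {y : ExteriorAlgebra F L} (hy : y ∈ Fil k) : θ y ∈ Fil k := by
  induction k generalizing y with
  | zero => exact mem_Fil_zero _
  | succ k ih =>
    refine Fil_succ_induction hy (fun v z hz => ?_) fun a b ha hb => ?_
    · rw [map_mul]
      exact mul_mem_Fil' (mem_of_aug (by rw [aug_map, aug_ι])) (ih hz) (add_comm _ _)
    · rw [map_add]; exact Submodule.add_mem _ ha hb

theorem ιInv_ι (v : L) : ιInv (ι F v) = v := ι_leftInverse v

theorem ιInv_of_mem {y : ExteriorAlgebra F L} (hy : y ∈ Fil 2) : ιInv y = 0 := by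
  refine Fil_succ_induction hy (fun v z hz => ?_) fun a b ha hb => ?_
  · refine Fil_succ_induction hz (fun w x _ => ?_) fun a b ha hb => ?_
    · rw [← mul_assoc]
      simp [ιInv, toTrivSqZeroExt_ι]
    · rw [mul_add, map_add, ha, hb, add_zero]
  · rw [map_add, ha, hb, add_zero]

theorem sub_ι_mem {y : ExteriorAlgebra F L} (hy : y ∈ Fil 1) : y - ι F (ιInv y) ∈ Fil 2 := by
  refine Fil_succ_induction hy (fun v z _ => ?_) fun a b ha hb => ?_
  · have h1 : ι F v * (z - algebraMap F _ (algebraMapInv z)) ∈ Fil 2 :=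
      mul_mem_Fil' (ι_mem_Fil v) (sub_aug_mem z) rfl
    have h2 : ι F v * z = ι F v * (z - algebraMap F _ (algebraMapInv z))
        + ι F (algebraMapInv z • v) := by
      rw [mul_sub, map_smul, ← Algebra.commutes, ← Algebra.smul_def, sub_add_cancel]
    rw [h2, map_add, ιInv_of_mem h1, ιInv_ι, zero_add, add_sub_cancel_right]
    exact h1
  · rw [map_add, map_add, ← sub_add_sub_comm]; exact Submodule.add_mem _ ha hb

theorem mem_Fil_two {y : ExteriorAlgebra F L} (hy : y ∈ Fil 1) (h : ιInv y = 0) : y ∈ Fil 2 := by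
  simpa [h] using sub_ι_mem hy

/-- the linear part of an endomorphism -/
theorem ιInv_map (θ : ExteriorAlgebra F L →ₐ[F] ExteriorAlgebra F L) {y : ExteriorAlgebra F L}
    (hy : y ∈ Fil 1) : ιInv (θ y) = ιInv (θ (ι F (ιInv y))) := by
  have := ιInv_of_mem (map_mem_Fil θ (sub_ι_mem hy))
  rwa [map_sub, map_sub, sub_eq_zero] at this

theorem eq_zero_of_two {M : Type*} [AddCommGroup M] [Module F M] (h2 : (2 : F) ≠ 0) {y : M}
    (h : y + y = 0) : y = 0 := by
  rw [← two_smul F] at h
  exact (smul_eq_zero.1 h).resolve_left h2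

theorem mem_of_two {M : Type*} [AddCommGroup M] [Module F M] (h2 : (2 : F) ≠ 0) {y : M}
    {X : Submodule F M} (h : y + y ∈ X) : y ∈ X := by
  rw [← two_smul F] at h
  exact (X.smul_mem_iff h2).1 h

theorem odd_mem_Fil (h2 : (2 : F) ≠ 0) {y : ExteriorAlgebra F L} (hy : sg y = -y) : y ∈ Fil 1 := by
  refine mem_of_aug (eq_zero_of_two h2 ?_)
  have := aug_map sg y
  rw [hy, map_neg] at this
  linear_combination -this

theorem super (a : ExteriorAlgebra F L) : ∃ a₀ a₁ : ExteriorAlgebra F L, a = a₀ + a₁ ∧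
    (sg a₀ = a₀ ∧ ∀ y, a₀ * y = y * a₀) ∧ (sg a₁ = - a₁ ∧ ∀ y, a₁ * y = sg y * a₁) := by
  induction a using CliffordAlgebra.left_induction with
  | algebraMap r =>
    exact ⟨_, 0, (add_zero _).symm, ⟨AlgHom.commutes _ _, fun y => Algebra.commutes _ _⟩,
      by simp, by simp⟩
  | add a b ha hb =>
    obtain ⟨a₀, a₁, rfl, ⟨h1, h2⟩, h3, h4⟩ := ha
    obtain ⟨b₀, b₁, rfl, ⟨k1, k2⟩, k3, k4⟩ := hb
    refine ⟨a₀ + b₀, a₁ + b₁, by abel, ⟨by rw [map_add, h1, k1], fun y => ?_⟩,
      by rw [map_add, h3, k3, neg_add], fun y => ?_⟩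
    · rw [add_mul, mul_add, h2, k2]
    · rw [add_mul, mul_add, h4, k4]
  | ι_mul x v ha =>
    obtain ⟨a₀, a₁, rfl, ⟨h1, h2⟩, h3, h4⟩ := ha
    refine ⟨ι F v * a₁, ι F v * a₀, by rw [mul_add, add_comm],
      ⟨by rw [map_mul, sg_ι, h3, neg_mul_neg], fun y => ?_⟩,
      by rw [map_mul, sg_ι, h1, neg_mul], fun y => ?_⟩
    · rw [mul_assoc, h4, ← mul_assoc, ι_mul v (sg y), sg_sg, mul_assoc]
    · rw [mul_assoc, h2, ← mul_assoc, ι_mul v y, mul_assoc]

theorem even_comm (h2 : (2 : F) ≠ 0) {a : ExteriorAlgebra F L} (ha : sg a = a)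
    (y : ExteriorAlgebra F L) : a * y = y * a := by
  obtain ⟨a₀, a₁, rfl, ⟨h1, h3⟩, h4, -⟩ := super a
  rw [map_add, h1, h4, add_right_inj] at ha
  have : a₁ = 0 := eq_zero_of_two h2 (by nth_rewrite 1 [← ha]; simp)
  rw [this, add_zero, h3]

theorem odd_comm (h2 : (2 : F) ≠ 0) {a : ExteriorAlgebra F L} (ha : sg a = -a)
    (y : ExteriorAlgebra F L) : a * y = sg y * a := by
  obtain ⟨a₀, a₁, rfl, ⟨h1, -⟩, h4, h5⟩ := super a
  rw [map_add, h1, h4, neg_add, add_left_inj] at ha
  have : a₀ = 0 := eq_zero_of_two h2 (by nth_rewrite 1 [ha]; simp)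
  rw [this, zero_add, h5]

theorem odd_sq (h2 : (2 : F) ≠ 0) {a : ExteriorAlgebra F L} (ha : sg a = -a) : a * a = 0 := by
  refine eq_zero_of_two h2 ?_
  nth_rewrite 1 [odd_comm h2 ha a, ha]
  simp

/-- in infinite dimension the centre is the even part -/
theorem even_of_comm (h2 : (2 : F) ≠ 0) (e : Module.Basis ℕ F L) {a : ExteriorAlgebra F L}
    (ha : ∀ y, a * y = y * a) : sg a = a := by
  have key : ∀ b : ExteriorAlgebra F L, ∃ K, ∀ k, K ≤ k →
      CliffordAlgebra.contractLeft (e.coord k) b = 0 := by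
    intro b
    induction b using CliffordAlgebra.left_induction with
    | algebraMap r => exact ⟨0, fun k _ => CliffordAlgebra.contractLeft_algebraMap _ _ _⟩
    | add a b ha hb =>
      obtain ⟨K, hK⟩ := ha
      obtain ⟨K', hK'⟩ := hb
      exact ⟨max K K', fun k hk => by
        rw [map_add, hK k (le_of_max_le_left hk), hK' k (le_of_max_le_right hk), add_zero]⟩
    | ι_mul x v ha =>
      obtain ⟨K, hK⟩ := ha
      obtain ⟨K', hK'⟩ := (e.repr v).support.bddAbove
      refine ⟨max K (K' + 1), fun k hk => ?_⟩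
      have h0 : e.coord k v = 0 := by
        by_contra hne
        have := hK' (Finset.mem_coe.2 (Finsupp.mem_support_iff.2 hne))
        have := le_of_max_le_right hk
        omega
      rw [CliffordAlgebra.contractLeft_ι_mul, hK k (le_of_max_le_left hk), h0]
      simp
  obtain ⟨a₀, a₁, rfl, ⟨h1, h3⟩, h4, h5⟩ := super a
  suffices a₁ = 0 by rw [this, add_zero, h1]
  obtain ⟨K, hK⟩ := key a₁
  have h6 : ι F (e K) * a₁ = 0 := by
    refine eq_zero_of_two h2 ?_
    have h7 := ha (ι F (e K))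
    rw [add_mul, mul_add, h3, add_right_inj, h5, sg_ι, neg_mul] at h7
    nth_rewrite 1 [← h7]
    simp
  have h8 := CliffordAlgebra.contractLeft_ι_mul (d := e.coord K) (e K) a₁
  rw [hK K le_rfl] at h8
  erw [h6] at h8
  simpa using h8.symm

end Pool.Agent.H6Z.Grass
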