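import Pool.Agent.H6Z.Grass.Step

/-!
Every involution of the Grassmann algebra of countable rank is conjugate to a diagonal one.
-/

set_option autoImplicit false

namespace Pool.Agent.H6Z.Grass

open ExteriorAlgebra

variable {F : Type*} [Field F] {L : Type*} [AddCommGroup L] [Module F L]

theorem ιInv_algebraMap (r : F) : ιInv (algebraMap F (ExteriorAlgebra F L) r) = 0 := by
  simp [ιInv, TrivSqZeroExt.algebraMap_eq_inl]

theorem ιInv_mem_of_adjoin {U : Submodule F (ExteriorAlgebra F L)} {y : ExteriorAlgebra F L}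
    (hy : y ∈ Algebra.adjoin F (U : Set (ExteriorAlgebra F L))) : ιInv y ∈ U.map ιInv := by
  induction hy using Algebra.adjoin_induction with
  | mem x hx => exact ⟨x, hx, rfl⟩
  | algebraMap r =>
    rw [ιInv_algebraMap]; exact Submodule.zero_mem _
  | add a b _ _ ha hb => rw [map_add]; exact Submodule.add_mem _ ha hb
  | mul a b _ _ ha hb =>
    have h1 := ιInv_of_mem (mul_mem_Fil' (sub_aug_mem a) (sub_aug_mem b) rfl)
    rw [sub_mul, mul_sub, mul_sub, ← map_mul, ← Algebra.commutes, ← Algebra.smul_def,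
      ← Algebra.smul_def, map_sub, map_sub, map_sub, ιInv_algebraMap, map_smul, map_smul, sub_zero,
      sub_sub, sub_eq_zero] at h1
    rw [h1]
    exact Submodule.add_mem _ (Submodule.smul_mem _ _ ha) (Submodule.smul_mem _ _ hb)

theorem linearize (h2 : (2 : F) ≠ 0) (e : Module.Basis ℕ F L) {φ : Au F L} (hφ : φ * φ = 1)
    (hev : Ev φ) : ∃ f : Au F L, ∀ v, φ (f (ι F v)) = f (ι F (lin φ v)) := by
  choose nx h1 h3 h4 using fun (U : {U // Good φ U}) (x : ExteriorAlgebra F L) =>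
    step h2 hφ hev U.2 x
  let sq : ℕ → {U // Good φ U} := fun n => Nat.rec
    ⟨⊥, Submodule.fg_bot, by simp, by simp, by simp⟩
    (fun n U => ⟨nx U (ι F (e n)), h3 U _⟩) n
  have hsq : ∀ n, (sq (n + 1)).1 = nx (sq n) (ι F (e n)) := fun n => rfl
  have hmono : Monotone fun n => (sq n).1 := monotone_nat_of_le_succ fun n => h1 _ _
  set U : Submodule F (ExteriorAlgebra F L) := ⨆ n, (sq n).1 with hU
  have hmem : ∀ u, u ∈ U ↔ ∃ n, u ∈ (sq n).1 := fun u =>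
    Submodule.mem_iSup_of_directed _ hmono.directed_le
  have hle : ∀ n, (sq n).1 ≤ U := fun n => le_iSup (fun n => (sq n).1) n
  have hodd : ∀ u ∈ U, sg u = -u := fun u hu => by
    obtain ⟨n, hn⟩ := (hmem u).1 hu
    exact (sq n).2.2.1 u hn
  have hinv : ∀ u ∈ U, φ u ∈ U := fun u hu => by
    obtain ⟨n, hn⟩ := (hmem u).1 hu
    exact hle n ((sq n).2.2.2.1 u hn)
  have hinj : ∀ u ∈ U, ιInv u = 0 → u = 0 := fun u hu => by
    obtain ⟨n, hn⟩ := (hmem u).1 hu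
    exact (sq n).2.2.2.2 u hn
  have hadj : ∀ v, ι F v ∈ Algebra.adjoin F (U : Set (ExteriorAlgebra F L)) := by
    intro v
    have : (⊤ : Submodule F L) ≤ (Subalgebra.toSubmodule
        (Algebra.adjoin F (U : Set (ExteriorAlgebra F L)))).comap (ι F) := by
      rw [← e.span_eq, Submodule.span_le]
      rintro _ ⟨n, rfl⟩
      exact Algebra.adjoin_mono (hle (n + 1)) (h4 (sq n) _)
    exact this trivial
  have hbij : Function.Bijective (ιInv ∘ₗ U.subtype : U →ₗ[F] L) := by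
    refine ⟨(injective_iff_map_eq_zero _).2 fun u hu => Subtype.ext (hinj u u.2 hu), fun v => ?_⟩
    obtain ⟨u, hu, h⟩ := ιInv_mem_of_adjoin (hadj v)
    exact ⟨⟨u, hu⟩, h.trans (ιInv_ι v)⟩
  let j : U ≃ₗ[F] L := LinearEquiv.ofBijective _ hbij
  let l : L →ₗ[F] ExteriorAlgebra F L := U.subtype ∘ₗ j.symm.toLinearMap
  have hlU : ∀ v, l v ∈ U := fun v => (j.symm v).2
  have hli : ∀ v, ιInv (l v) = v := fun v => j.apply_symm_apply v
  have hlu : ∀ u ∈ U, l (ιInv u) = u := fun u hu =>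
    congrArg Subtype.val (j.symm_apply_apply ⟨u, hu⟩)
  let f := ExteriorAlgebra.lift F ⟨l, fun v => odd_sq h2 (hodd _ (hlU v))⟩
  have hf : ∀ v, f (ι F v) = l v := fun v => lift_ι_apply F _ _ v
  have hFU : FU f := FU_of_gen f fun v => by
    rw [hf]
    exact mem_Fil_two (Submodule.sub_mem _ (odd_mem_Fil h2 (hodd _ (hlU v))) (ι_mem_Fil v))
      (by rw [map_sub, hli, ιInv_ι, sub_self])
  have hsurj : Function.Surjective f := by
    have h5 : Algebra.adjoin F (U : Set (ExteriorAlgebra F L)) ≤ f.range :=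
      Algebra.adjoin_le fun u hu => ⟨ι F (ιInv u), (hf _).trans (hlu u hu)⟩
    intro y
    refine h5 ?_
    induction y using CliffordAlgebra.left_induction with
    | algebraMap r => exact Subalgebra.algebraMap_mem _ r
    | add a b ha hb => exact Subalgebra.add_mem _ ha hb
    | ι_mul z v hz => exact Subalgebra.mul_mem _ (hadj v) hz
  refine ⟨AlgEquiv.ofBijective f ⟨hFU.injective, hsurj⟩, fun v => ?_⟩
  change φ (f (ι F v)) = f (ι F (lin φ v))
  rw [hf, hf, ← hlu _ (hinv _ (hlU v)), ιInv_au φ (odd_mem_Fil h2 (hodd _ (hlU v))), hli]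

theorem diagonalize (h2 : (2 : F) ≠ 0) (e : Module.Basis ℕ F L) (T : L →ₗ[F] L)
    (hT : ∀ v, T (T v) = v) : ∃ S : L ≃ₗ[F] L, ∀ i, T (S (e i)) = S (e i) ∨ T (S (e i)) = - S (e i) := by
  let Lp : Submodule F L := LinearMap.ker (T - LinearMap.id)
  let Lm : Submodule F L := LinearMap.ker (T + LinearMap.id)
  have hp : ∀ v, v ∈ Lp ↔ T v = v := fun v => by simp [Lp, sub_eq_zero]
  have hm : ∀ v, v ∈ Lm ↔ T v = -v := fun v => by simp [Lm, add_eq_zero_iff_eq_neg]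
  have hc : IsCompl Lp Lm := by
    constructor
    · rw [Submodule.disjoint_def]
      intro v h1 h3
      rw [hp] at h1
      rw [hm, h1] at h3
      exact eq_zero_of_two h2 (by nth_rewrite 1 [h3]; simp)
    · rw [codisjoint_iff, eq_top_iff]
      intro v _
      refine mem_of_two h2 ?_
      have : v + v = (v + T v) + (v - T v) := by abel
      rw [this]
      refine Submodule.add_mem_sup ((hp _).2 ?_) ((hm _).2 ?_)
      · rw [map_add, hT, add_comm]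
      · rw [map_sub, hT, neg_sub]
  let b := ((Module.Basis.ofVectorSpace F Lp).prod (Module.Basis.ofVectorSpace F Lm)).map
    (Submodule.prodEquivOfIsCompl Lp Lm hc)
  refine ⟨e.equiv b (e.indexEquiv b), fun i => ?_⟩
  rw [Module.Basis.equiv_apply]
  rcases e.indexEquiv b i with j | j
  · left
    rw [← hp]
    simp [b, Module.Basis.prod_apply]
  · right
    rw [← hm]
    simp [b, Module.Basis.prod_apply]

theorem make_even (h2 : (2 : F) ≠ 0) (e : Module.Basis ℕ F L) {φ : Au F L} (hφ : φ * φ = 1) :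
    ∃ r : Au F L, Ev (r⁻¹ * φ * r) := by
  have hφφ : ∀ y, φ (φ y) = y := fun y => DFunLike.congr_fun hφ y
  have hi : φ⁻¹ = φ := inv_eq_of_mul_eq_one_right hφ
  have hσ : (sgA : Au F L)⁻¹ = sgA := inv_eq_of_mul_eq_one_right sgA_mul_self
  have hcen : ∀ y, sg y = y → sg (φ y) = φ y := fun y hy => even_of_comm h2 e fun z => by
    rw [← hφφ z, ← map_mul, ← map_mul, even_comm h2 hy]
  set h := φ * sgA * φ * sgA with hh
  have hhy : ∀ y, h y = φ (sg (φ (sg y))) := fun y => rfl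
  have hFU : FU h := FU_of_gen h.toAlgHom fun v => by
    change h (ι F v) - ι F v ∈ _
    refine mem_Fil_two (Submodule.sub_mem _ (au_mem_Fil h (ι_mem_Fil v)) (ι_mem_Fil v)) ?_
    have hs : ∀ y : ExteriorAlgebra F L, y ∈ Fil 1 → ιInv (sg y) = - ιInv y := fun y hy => by
      rw [ιInv_map sg hy, sg_ι, map_neg, ιInv_ι]
    have m1 := map_mem_Fil sg (ι_mem_Fil (F := F) v)
    have m2 := au_mem_Fil φ m1
    have m3 := map_mem_Fil sg m2
    rw [map_sub, hhy, ιInv_au φ m3, hs _ m2, ιInv_au φ m1, hs _ (ι_mem_Fil v), ιInv_ι, map_neg,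
      lin_lin hφ, neg_neg, sub_self]
  have hfix : ∀ y, sg y = y → h y = y := fun y hy => by rw [hhy, hy, hcen y hy, hφφ]
  have hev : ∀ y, sg (h y - y) = h y - y := fun y => by
    obtain ⟨a₀, a₁, rfl, ⟨h1, -⟩, h3, -⟩ := super y
    have : h (a₀ + a₁) - (a₀ + a₁) = φ (- (sg (φ a₁) + φ a₁)) := by
      rw [map_add, hfix a₀ h1, hhy, h3, map_neg, map_neg, map_neg, map_neg, map_add, hφφ]
      abel
    rw [this]
    refine hcen _ ?_
    rw [map_neg, map_add, sg_sg, add_comm]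
  have hn : IsNilpotent (h.toLinearMap - 1 : Module.End F (ExteriorAlgebra F L)) := by
    refine ⟨2, LinearMap.ext fun y => ?_⟩
    rw [pow_two]
    change h (h y - y) - (h y - y) = 0
    rw [hfix _ (hev y), sub_self]
  obtain ⟨s, s1, s2, s3, -⟩ := exists_sqrt h2 h hFU hn
  obtain ⟨r, r1, r2, -⟩ := exists_sqrt h2 s s1 s3
  have hinv : h⁻¹ = sgA * φ * sgA * φ := by
    rw [hh]; simp only [mul_inv_rev, hi, hσ, mul_assoc]
  have c1 : sgA * s * sgA⁻¹ = s⁻¹ := sqrt_unique h2 (s1.conj _) s1.inv (by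
    calc sgA * s * sgA⁻¹ * (sgA * s * sgA⁻¹) = sgA * (s * s) * sgA⁻¹ := by group
      _ = h⁻¹ := by rw [s2, hinv, hh]; group
      _ = s⁻¹ * s⁻¹ := by rw [← s2]; group)
  have c2 : φ * s * φ⁻¹ = s⁻¹ := sqrt_unique h2 (s1.conj _) s1.inv (by
    calc φ * s * φ⁻¹ * (φ * s * φ⁻¹) = φ * (s * s) * φ⁻¹ := by group
      _ = (φ * φ) * (sgA * φ * sgA * φ⁻¹) := by rw [s2, hh]; group
      _ = h⁻¹ := by rw [hφ, hinv, hi, one_mul]
      _ = s⁻¹ * s⁻¹ := by rw [← s2]; group)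
  have c3 : sgA * r * sgA⁻¹ = r⁻¹ := sqrt_unique h2 (r1.conj _) r1.inv (by
    calc sgA * r * sgA⁻¹ * (sgA * r * sgA⁻¹) = sgA * (r * r) * sgA⁻¹ := by group
      _ = s⁻¹ := by rw [r2, c1]
      _ = r⁻¹ * r⁻¹ := by rw [← r2]; group)
  have c4 : r * sgA * r⁻¹ = s * sgA := by
    calc r * sgA * r⁻¹ = r * (sgA * r * sgA⁻¹)⁻¹ * sgA := by group
      _ = s * sgA := by rw [c3, inv_inv, r2]
  have c5 : φ * (s * sgA) * φ⁻¹ = s * sgA := by
    calc φ * (s * sgA) * φ⁻¹ = (φ * s * φ⁻¹) * (φ * sgA * φ⁻¹ * sgA) * sgA⁻¹ := by group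
      _ = s⁻¹ * (s * s) * sgA := by rw [c2, hi, ← hh, s2, hσ]
      _ = s * sgA := by group
  refine ⟨r, Ev_iff.2 ?_⟩
  calc r⁻¹ * φ * r * sgA = r⁻¹ * (φ * (r * sgA * r⁻¹) * φ⁻¹) * φ * r := by group
    _ = r⁻¹ * (r * sgA * r⁻¹) * φ * r := by rw [c4, c5]
    _ = sgA * (r⁻¹ * φ * r) := by group

theorem conj_diagonal (h2 : (2 : F) ≠ 0) (e : Module.Basis ℕ F L) {φ : Au F L} (hφ : φ * φ = 1) :
    ∃ G : Au F L, ∀ i, φ (G (ι F (e i))) = G (ι F (e i)) ∨ φ (G (ι F (e i))) = - G (ι F (e i)) := by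
  obtain ⟨r, hr⟩ := make_even h2 e hφ
  have h1 : (r⁻¹ * φ * r) * (r⁻¹ * φ * r) = 1 := by
    calc (r⁻¹ * φ * r) * (r⁻¹ * φ * r) = r⁻¹ * (φ * φ) * r := by group
      _ = 1 := by rw [hφ]; group
  obtain ⟨f, hf⟩ := linearize h2 e h1 hr
  obtain ⟨S, hS⟩ := diagonalize h2 e _ (lin_lin h1)
  let M : Au F L := AlgEquiv.ofAlgHom (ExteriorAlgebra.map S.toLinearMap)
    (ExteriorAlgebra.map S.symm.toLinearMap) (by rw [map_comp_map]; simp)
    (by rw [map_comp_map]; simp)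
  have hM : ∀ v, M (ι F v) = ι F (S v) := fun v => map_apply_ι _ _
  refine ⟨r * f * M, fun i => ?_⟩
  have h3 : φ ((r * f * M) (ι F (e i))) = r (f (ι F (lin (r⁻¹ * φ * r) (S (e i))))) := by
    rw [← hf, AlgEquiv.mul_apply, AlgEquiv.mul_apply, hM]
    simp
  have h4 : (r * f * M) (ι F (e i)) = r (f (ι F (S (e i)))) := by
    rw [AlgEquiv.mul_apply, AlgEquiv.mul_apply, hM]
  rw [h3, h4]
  rcases hS i with h | h
  · left; rw [h]
  · right; rw [h, map_neg, map_neg, map_neg]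

theorem exists_involution {E : Type*} [Ring E] [Algebra F E] (A₀ A₁ : Submodule F E)
    (hc : IsCompl A₀ A₁) (h00 : ∀ x ∈ A₀, ∀ y ∈ A₀, x * y ∈ A₀)
    (h01 : ∀ x ∈ A₀, ∀ y ∈ A₁, x * y ∈ A₁) (h10 : ∀ x ∈ A₁, ∀ y ∈ A₀, x * y ∈ A₁)
    (h11 : ∀ x ∈ A₁, ∀ y ∈ A₁, x * y ∈ A₀) :
    ∃ φ : E ≃ₐ[F] E, φ * φ = 1 ∧ (∀ x ∈ A₀, φ x = x) ∧ ∀ x ∈ A₁, φ x = -x := by
  let φ₀ : E →ₗ[F] E := LinearMap.ofIsCompl hc A₀.subtype (- A₁.subtype)
  have p0 : ∀ x ∈ A₀, φ₀ x = x := fun x hx => LinearMap.ofIsCompl_apply_left hc ⟨x, hx⟩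
  have p1 : ∀ x ∈ A₁, φ₀ x = -x := fun x hx => LinearMap.ofIsCompl_apply_right hc ⟨x, hx⟩
  have dec : ∀ x : E, ∃ a ∈ A₀, ∃ b ∈ A₁, a + b = x := fun x =>
    Submodule.mem_sup.1 (by rw [hc.sup_eq_top]; trivial)
  have hmul : ∀ x y, φ₀ (x * y) = φ₀ x * φ₀ y := fun x y => by
    obtain ⟨a, ha, b, hb, rfl⟩ := dec x
    obtain ⟨c, hc', d, hd, rfl⟩ := dec y
    rw [add_mul, mul_add, mul_add, map_add, map_add, map_add, map_add, map_add,
      p0 _ (h00 a ha c hc'), p1 _ (h01 a ha d hd), p1 _ (h10 b hb c hc'), p0 _ (h11 b hb d hd),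
      p0 a ha, p1 b hb, p0 c hc', p1 d hd]
    noncomm_ring
  have hinv : ∀ x, φ₀ (φ₀ x) = x := fun x => by
    obtain ⟨a, ha, b, hb, rfl⟩ := dec x
    rw [map_add, p0 a ha, p1 b hb, map_add, map_neg, p0 a ha, p1 b hb, neg_neg]
  have hone : φ₀ 1 = 1 := by
    have := hmul 1 (φ₀ 1)
    rw [one_mul, hinv, mul_one] at this
    exact this.symm
  let φ₁ : E →ₐ[F] E := AlgHom.ofLinearMap φ₀ hone hmul
  exact ⟨AlgEquiv.ofAlgHom φ₁ φ₁ (AlgHom.ext hinv) (AlgHom.ext hinv), AlgEquiv.ext hinv, p0, p1⟩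

theorem main (h2 : (2 : F) ≠ 0) (e : Module.Basis ℕ F L)
    (A₀ A₁ : Submodule F (ExteriorAlgebra F L))
    (hc : IsCompl A₀ A₁) (h00 : ∀ x ∈ A₀, ∀ y ∈ A₀, x * y ∈ A₀)
    (h01 : ∀ x ∈ A₀, ∀ y ∈ A₁, x * y ∈ A₁) (h10 : ∀ x ∈ A₁, ∀ y ∈ A₀, x * y ∈ A₁)
    (h11 : ∀ x ∈ A₁, ∀ y ∈ A₁, x * y ∈ A₀) :
    ∃ G : Au F L, ∀ i, G (ι F (e i)) ∈ A₀ ∨ G (ι F (e i)) ∈ A₁ := by
  obtain ⟨φ, hφ, p0, p1⟩ := exists_involution A₀ A₁ hc h00 h01 h10 h11
  obtain ⟨G, hG⟩ := conj_diagonal h2 e hφ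
  refine ⟨G, fun i => ?_⟩
  obtain ⟨a, ha, b, hb, hab⟩ := Submodule.mem_sup.1
    (show G (ι F (e i)) ∈ A₀ ⊔ A₁ by rw [hc.sup_eq_top]; trivial)
  have h1 := hG i
  rw [← hab, map_add, p0 a ha, p1 b hb] at h1
  rcases h1 with h | h
  · left
    rw [add_right_inj] at h
    have : b = 0 := eq_zero_of_two h2 (by nth_rewrite 1 [← h]; simp)
    rw [← hab, this, add_zero]; exact ha
  · right
    rw [neg_add, add_left_inj] at h
    have : a = 0 := eq_zero_of_two h2 (by nth_rewrite 1 [h]; simp)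
    rw [← hab, this, zero_add]; exact hb

end Pool.Agent.H6Z.Grass
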