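import Pool.Agent.H6Z.Grass.Sqrt

/-!
Finitely supported formally unipotent endomorphisms are unipotent.
-/

set_option autoImplicit false

namespace Pool.Agent.H6Z.Grass

open ExteriorAlgebra

variable {F : Type*} [Field F] {L : Type*} [AddCommGroup L] [Module F L]

theorem smul_le {X Y X' Y' : Submodule F (ExteriorAlgebra F L)} (h : X ≤ X') (h' : Y ≤ Y') :
    X * Y ≤ X' * Y' := Submodule.mul_le.2 fun _ ha _ hb => Submodule.mul_mem_mul (h ha) (h' hb)

theorem mul_top_mul {X Y : Submodule F (ExteriorAlgebra F L)} (h : Commute Y ⊤) :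
    (X * ⊤) * (Y * ⊤) = X * Y * ⊤ := by
  rw [mul_assoc X, ← mul_assoc ⊤ Y, ← h.eq, mul_assoc Y, top_mul_top, mul_assoc]

/-- the ideal generated by a subspace of generators -/
noncomputable def N (W : Submodule F L) : Submodule F (ExteriorAlgebra F L) := P W * ⊤

theorem N_mono {W W' : Submodule F L} (h : W ≤ W') : N W ≤ N W' :=
  smul_le (P_mono h) le_rfl

theorem N_mul_right {W : Submodule F L} {y : ExteriorAlgebra F L} (hy : y ∈ N W)
    (z : ExteriorAlgebra F L) : y * z ∈ N W := by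
  have := Submodule.mul_mem_mul hy (Submodule.mem_top (R := F) (x := z))
  rwa [N, mul_assoc, top_mul_top] at this

theorem N_mul_left {W : Submodule F L} {y : ExteriorAlgebra F L} (hy : y ∈ N W)
    (z : ExteriorAlgebra F L) : z * y ∈ N W := by
  have := Submodule.mul_mem_mul (Submodule.mem_top (R := F) (x := z)) hy
  rwa [N, ← mul_assoc, ← (commute_P_top W).eq, mul_assoc, top_mul_top] at this

theorem exists_fg_of_fg {M : Type*} [AddCommGroup M] [Module F M]
    (G : Submodule F L → Submodule F M) (hG : Monotone G) (Y : Submodule F M) (hY : Y.FG)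
    (h : ∀ y ∈ Y, ∃ W : Submodule F L, W.FG ∧ y ∈ G W) : ∃ W : Submodule F L, W.FG ∧ Y ≤ G W := by
  revert h
  refine Submodule.fg_induction (motive := fun Y _ => (∀ y ∈ Y, ∃ W : Submodule F L,
    W.FG ∧ y ∈ G W) → ∃ W : Submodule F L, W.FG ∧ Y ≤ G W) (fun y h => ?_)
    (fun Y Y' _ _ ih ih' h => ?_) Y hY
  · obtain ⟨W, hW, hy⟩ := h y (Submodule.mem_span_singleton_self y)
    exact ⟨W, hW, (Submodule.span_singleton_le_iff_mem _ _).2 hy⟩
  · obtain ⟨W, hW, hy⟩ := ih fun y hy => h y (Submodule.mem_sup_left hy)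
    obtain ⟨W', hW', hy'⟩ := ih' fun y hy => h y (Submodule.mem_sup_right hy)
    exact ⟨W ⊔ W', hW.sup hW', sup_le (hy.trans (hG le_sup_left)) (hy'.trans (hG le_sup_right))⟩

theorem exists_N_of_mem {y : ExteriorAlgebra F L} (hy : y ∈ Fil 1) :
    ∃ W : Submodule F L, W.FG ∧ y ∈ N W := by
  refine Fil_succ_induction hy (fun v z _ => ?_) ?_
  · exact ⟨F ∙ v, Submodule.fg_span_singleton v,
      Submodule.mul_mem_mul ⟨v, Submodule.mem_span_singleton_self v, rfl⟩ trivial⟩
  · rintro a b ⟨W, hW, ha⟩ ⟨W', hW', hb⟩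
    exact ⟨W ⊔ W', hW.sup hW',
      Submodule.add_mem _ (N_mono le_sup_left ha) (N_mono le_sup_right hb)⟩

theorem exists_N_of_fg (Y : Submodule F (ExteriorAlgebra F L)) (hY : Y.FG) (h : Y ≤ Fil 1) :
    ∃ W : Submodule F L, W.FG ∧ Y ≤ N W :=
  exists_fg_of_fg N (fun _ _ => N_mono) Y hY fun _ hy => exists_N_of_mem (h hy)

theorem map_N (c : ExteriorAlgebra F L →ₐ[F] ExteriorAlgebra F L) {W : Submodule F L}
    (hW : W.FG) : ∃ W' : Submodule F L, W'.FG ∧ ∀ y ∈ N W, c y ∈ N W' := by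
  obtain ⟨W', hW', h⟩ := exists_N_of_fg ((P W).map c.toLinearMap) ((hW.map _).map _) (by
    rintro _ ⟨_, ⟨w, -, rfl⟩, rfl⟩
    exact map_mem_Fil c (ι_mem_Fil w))
  refine ⟨W', hW', fun y hy => Submodule.mul_induction_on hy (fun a ha b _ => ?_)
    fun a b ha hb => ?_⟩
  · rw [map_mul]; exact N_mul_right (h ⟨a, ha, rfl⟩) _
  · rw [map_add]; exact Submodule.add_mem _ ha hb

/-- finitely supported maps -/
def FS (θ : ExteriorAlgebra F L → ExteriorAlgebra F L) : Prop :=
  ∃ W : Submodule F L, W.FG ∧ ∀ y, θ y - y ∈ N W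

theorem FS_of_gen (θ : ExteriorAlgebra F L →ₐ[F] ExteriorAlgebra F L) {W : Submodule F L}
    (hW : W.FG) (h : ∀ v, θ (ι F v) - ι F v ∈ N W) : FS θ := by
  refine ⟨W, hW, fun y => ?_⟩
  induction y using CliffordAlgebra.left_induction with
  | algebraMap r => rw [AlgHom.commutes, sub_self]; exact Submodule.zero_mem _
  | add a b ha hb => rw [map_add, ← sub_add_sub_comm]; exact Submodule.add_mem _ ha hb
  | ι_mul z v hz =>
    have : θ (ι F v * z) - ι F v * z = (θ (ι F v) - ι F v) * θ z + ι F v * (θ z - z) := by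
      rw [map_mul]; noncomm_ring
    rw [this]
    exact Submodule.add_mem _ (N_mul_right (h v) _) (N_mul_left hz _)

theorem FS_one : FS (1 : Au F L) := ⟨⊥, Submodule.fg_bot, fun y => by simp⟩

theorem FS.mul {θ η : Au F L} (h : FS θ) (h' : FS η) : FS (θ * η) := by
  obtain ⟨W, hW, h⟩ := h
  obtain ⟨W', hW', h'⟩ := h'
  refine ⟨W ⊔ W', hW.sup hW', fun y => ?_⟩
  have := Submodule.add_mem _ (N_mono le_sup_left (h (η y))) (N_mono le_sup_right (h' y))
  rwa [sub_add_sub_cancel] at this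

theorem FS.inv {θ : Au F L} (h : FS θ) : FS (θ⁻¹ : Au F L) := by
  obtain ⟨W, hW, h⟩ := h
  refine ⟨W, hW, fun y => ?_⟩
  have := Submodule.neg_mem _ (h (θ⁻¹ y))
  rw [neg_sub] at this
  simpa using this

theorem FS.conj {θ : Au F L} (h : FS θ) (c : Au F L) : FS (c * θ * c⁻¹) := by
  obtain ⟨W, hW, h⟩ := h
  obtain ⟨W', hW', h'⟩ := map_N c.toAlgHom hW
  refine ⟨W', hW', fun y => ?_⟩
  have : c (θ (c⁻¹ y) - c⁻¹ y) ∈ N W' := h' _ (h _)
  rw [map_sub] at this
  simpa using this

theorem P_mul_Fil (W : Submodule F L) : P W * Fil 1 ≤ Fil 2 := by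
  rw [Fil_succ 1]
  exact smul_le (P_mono le_top) le_rfl

theorem mem_P_mul_Fil {W : Submodule F L} {y : ExteriorAlgebra F L} (hy : y ∈ N W)
    (hy2 : y ∈ Fil 2) : y ∈ P W * Fil 1 := by
  have : ∃ w ∈ W, y - ι F w ∈ P W * Fil 1 := by
    refine Submodule.mul_induction_on hy ?_ ?_
    · rintro _ ⟨w, hw, rfl⟩ z -
      refine ⟨algebraMapInv z • w, W.smul_mem _ hw, ?_⟩
      have : ι F w * z - ι F (algebraMapInv z • w) =
          ι F w * (z - algebraMap F _ (algebraMapInv z)) := by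
        rw [mul_sub, map_smul, ← Algebra.commutes, ← Algebra.smul_def]
      rw [this]
      exact Submodule.mul_mem_mul ⟨w, hw, rfl⟩ (sub_aug_mem z)
    · rintro a b ⟨w, hw, ha⟩ ⟨w', hw', hb⟩
      refine ⟨w + w', W.add_mem hw hw', ?_⟩
      rw [map_add, ← sub_add_sub_comm]; exact Submodule.add_mem _ ha hb
  obtain ⟨w, -, h⟩ := this
  have h1 := ιInv_of_mem (P_mul_Fil W h)
  rw [map_sub, ιInv_of_mem hy2, ιInv_ι, zero_sub, neg_eq_zero] at h1
  simpa [h1] using h

theorem exists_P_mul_N {W : Submodule F L} {y : ExteriorAlgebra F L} (hy : y ∈ P W * Fil 1) :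
    ∃ W' : Submodule F L, W'.FG ∧ y ∈ P W * N W' := by
  refine Submodule.mul_induction_on hy (fun a ha b hb => ?_) ?_
  · obtain ⟨W', hW', h⟩ := exists_N_of_mem hb
    exact ⟨W', hW', Submodule.mul_mem_mul ha h⟩
  · rintro a b ⟨V, hV, ha⟩ ⟨V', hV', hb⟩
    exact ⟨V ⊔ V', hV.sup hV', Submodule.add_mem _
      (smul_le le_rfl (N_mono le_sup_left) ha)
      (smul_le le_rfl (N_mono le_sup_right) hb)⟩

theorem nilpotent_of (θ : ExteriorAlgebra F L →ₐ[F] ExteriorAlgebra F L) (hU : FU θ)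
    (hS : FS θ) : IsNilpotent (θ.toLinearMap - 1 : Module.End F (ExteriorAlgebra F L)) := by
  set D : Module.End F (ExteriorAlgebra F L) := θ.toLinearMap - 1 with hD
  have hDy : ∀ y, D y = θ y - y := fun y => rfl
  obtain ⟨W, hW, hN⟩ := hS
  obtain ⟨V, hV, hWV⟩ := exists_fg_of_fg (fun V => P W * N V)
    (fun _ _ h => smul_le le_rfl (N_mono h)) ((P W).map D) ((hW.map _).map _) (by
      rintro _ ⟨_, ⟨w, -, rfl⟩, rfl⟩
      exact exists_P_mul_N (mem_P_mul_Fil (hN _) (hU 1 _ (ι_mem_Fil w))))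
  have hle : ∀ X : Submodule F (ExteriorAlgebra F L), X * ⊤ ≤ ⊤ := fun _ => le_top
  have c1 : ∀ a, ∀ p ∈ P W ^ a, D p ∈ P W ^ a * P V * ⊤ := by
    intro a
    induction a with
    | zero =>
      intro p hp
      rw [pow_zero, Submodule.mem_one] at hp
      obtain ⟨r, rfl⟩ := hp
      rw [hDy, AlgHom.commutes, sub_self]; exact Submodule.zero_mem _
    | succ a ih =>
      intro p hp
      rw [pow_succ'] at hp
      refine Submodule.mul_induction_on hp (fun x hx z hz => ?_) fun x z hx hz => ?_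
      · have h1 : D (x * z) = D x * θ z + x * D z := by
          rw [hDy, hDy, hDy, map_mul]; noncomm_ring
        have h2 : θ z ∈ P W ^ a * ⊤ := by
          have h3 : D z ∈ P W ^ a * ⊤ := by
            have := ih z hz
            rw [mul_assoc] at this
            exact smul_le le_rfl le_top this
          have := Submodule.add_mem _ h3 (le_mul_top _ hz)
          rwa [hDy, sub_add_cancel] at this
        rw [h1]
        refine Submodule.add_mem _ ?_ ?_
        · have h4 : D x ∈ P W * P V * ⊤ := by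
            have := hWV ⟨x, hx, rfl⟩
            rwa [N, ← mul_assoc] at this
          have := Submodule.mul_mem_mul h4 h2
          rwa [mul_top_mul ((commute_P_top W).pow_left a), mul_assoc (P W),
            ((commute_P_P V W).pow_right a).eq, ← mul_assoc, ← pow_succ'] at this
        · have := Submodule.mul_mem_mul hx (ih z hz)
          rwa [← mul_assoc, ← mul_assoc, ← pow_succ'] at this
      · rw [map_add]; exact Submodule.add_mem _ hx hz
  have c2 : ∀ a b, ∀ y ∈ P W ^ a * (P V ^ b * ⊤),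
      D y ∈ P W ^ (a + 1) * ⊤ ⊔ P W ^ a * (P V ^ (b + 1) * ⊤) := by
    intro a b y hy
    refine Submodule.mul_induction_on hy (fun p hp z hz => ?_) fun x z hx hz => ?_
    · have h1 : D (p * z) = θ p * D z + D p * z := by
        rw [hDy, hDy, hDy, map_mul]; noncomm_ring
      have h2 : θ p ∈ P W ^ a * ⊤ := by
        have h3 : D p ∈ P W ^ a * ⊤ := by
          have := c1 a p hp
          rw [mul_assoc] at this
          exact smul_le le_rfl le_top this
        have := Submodule.add_mem _ h3 (le_mul_top _ hp)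
        rwa [hDy, sub_add_cancel] at this
      rw [h1]
      refine Submodule.add_mem_sup ?_ ?_
      · have := Submodule.mul_mem_mul h2 (hN z)
        rwa [N, mul_top_mul (commute_P_top W), ← pow_succ] at this
      · have := Submodule.mul_mem_mul (c1 a p hp) hz
        rwa [mul_top_mul ((commute_P_top V).pow_left b), mul_assoc (P W ^ a), ← pow_succ',
          mul_assoc] at this
    · rw [map_add]; exact Submodule.add_mem _ hx hz
  have c3 : ∀ a, ∀ y ∈ P W ^ a * ⊤, D y ∈ P W ^ a * ⊤ := by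
    intro a y hy
    have := c2 a 0 y (by rwa [pow_zero, one_mul])
    refine (sup_le ?_ ?_ : _ ≤ P W ^ a * ⊤) this
    · rw [pow_succ, mul_assoc]; exact smul_le le_rfl le_top
    · exact smul_le le_rfl le_top
  have c4 : ∀ a b, ∀ y ∈ P W ^ a * ⊤,
      (D ^ b) y ∈ P W ^ (a + 1) * ⊤ ⊔ P W ^ a * (P V ^ b * ⊤) := by
    intro a b y hy
    induction b with
    | zero => exact Submodule.mem_sup_right (by rwa [pow_zero, pow_zero, one_mul])
    | succ b ih =>
      obtain ⟨x, hx, z, hz, hxz⟩ := Submodule.mem_sup.1 ih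
      rw [pow_succ' D, Module.End.mul_apply, ← hxz, map_add]
      exact Submodule.add_mem _ (Submodule.mem_sup_left (c3 _ x hx)) (c2 a b z hz)
  obtain ⟨B, hB⟩ := P_nilpotent hV
  obtain ⟨A, hA⟩ := P_nilpotent hW
  have c5 : ∀ a y, ((D ^ B) ^ a) y ∈ P W ^ a * ⊤ := by
    intro a y
    induction a with
    | zero => rw [pow_zero (P W), one_mul]; trivial
    | succ a ih =>
      have := c4 a B _ ih
      rw [hB, zero_mul, mul_zero, Submodule.zero_eq_bot, sup_bot_eq] at this
      rwa [pow_succ' (D ^ B), Module.End.mul_apply]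
  refine ⟨B * A, LinearMap.ext fun y => ?_⟩
  have := c5 A y
  rw [hA, zero_mul, Submodule.zero_eq_bot, Submodule.mem_bot] at this
  rw [pow_mul, this, LinearMap.zero_apply]

theorem bijective_of (θ : ExteriorAlgebra F L →ₐ[F] ExteriorAlgebra F L) (hU : FU θ)
    (hS : FS θ) : Function.Bijective θ := by
  have h := (nilpotent_of θ hU hS).isUnit_one_add
  rw [add_sub_cancel] at h
  exact (Module.End.isUnit_iff _).1 h

theorem surj_on (θ : ExteriorAlgebra F L →ₐ[F] ExteriorAlgebra F L) (hU : FU θ)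
    (hS : FS θ) (V : Submodule F (ExteriorAlgebra F L)) (hV : ∀ y ∈ V, θ y ∈ V) :
    ∀ y ∈ V, ∃ z ∈ V, θ z = y := by
  have hn := nilpotent_of θ hU hS
  have hD : ∀ y ∈ V, (θ.toLinearMap - 1 : Module.End F (ExteriorAlgebra F L)) y ∈ V :=
    fun y hy => V.sub_mem (hV y hy) hy
  have h0 : IsNilpotent (R := Module.End F V) (LinearMap.restrict
      (θ.toLinearMap - 1 : Module.End F (ExteriorAlgebra F L)) hD) :=
    Module.End.isNilpotent.restrict hD hn
  have h := IsNilpotent.isUnit_one_add (R := Module.End F V) h0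
  intro y hy
  obtain ⟨z, hz⟩ := ((Module.End.isUnit_iff _).1 h).2 ⟨y, hy⟩
  refine ⟨z, z.2, ?_⟩
  have := congrArg Subtype.val hz
  simpa using this

end Pool.Agent.H6Z.Grass
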