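import Pool.Agent.H6Z.Grass.Basic

/-!
Formally unipotent automorphisms and their square roots.
-/

set_option autoImplicit false

namespace Pool.Agent.H6Z.Grass

open ExteriorAlgebra

variable {F : Type*} [Field F] {L : Type*} [AddCommGroup L] [Module F L]

/-- formally unipotent maps -/
def FU (θ : ExteriorAlgebra F L → ExteriorAlgebra F L) : Prop :=
  ∀ k y, y ∈ Fil k → θ y - y ∈ Fil (k + 1)

theorem FU.mem {θ : ExteriorAlgebra F L → ExteriorAlgebra F L} (h : FU θ) {k : ℕ}
    {y : ExteriorAlgebra F L} (hy : y ∈ Fil k) : θ y ∈ Fil k := by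
  have := Submodule.add_mem _ (Fil_anti (h k y hy)) hy
  rwa [sub_add_cancel] at this

theorem FU_of_gen (θ : ExteriorAlgebra F L →ₐ[F] ExteriorAlgebra F L)
    (h : ∀ v, θ (ι F v) - ι F v ∈ Fil 2) : FU θ := by
  intro k
  induction k with
  | zero =>
    intro y _
    exact mem_of_aug (by rw [map_sub, aug_map, sub_self])
  | succ k ih =>
    intro y hy
    refine Fil_succ_induction hy (fun v z hz => ?_) fun a b ha hb => ?_
    · have : θ (ι F v * z) - ι F v * z = (θ (ι F v) - ι F v) * θ z + ι F v * (θ z - z) := by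
        rw [map_mul]; noncomm_ring
      rw [this]
      exact Submodule.add_mem _ (mul_mem_Fil' (h v) (map_mem_Fil θ hz) (by ring))
        (mul_mem_Fil' (ι_mem_Fil v) (ih z hz) (by ring))
    · rw [map_add, ← sub_add_sub_comm]; exact Submodule.add_mem _ ha hb

theorem FU.ιInv {θ : ExteriorAlgebra F L → ExteriorAlgebra F L} (h : FU θ)
    {y : ExteriorAlgebra F L} (hy : y ∈ Fil 1) : ιInv (θ y) = ιInv y := by
  have := ιInv_of_mem (h 1 y hy)
  rwa [map_sub, sub_eq_zero] at this

theorem FU.injective {θ : ExteriorAlgebra F L →ₐ[F] ExteriorAlgebra F L} (h : FU θ) :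
    Function.Injective θ := by
  rw [injective_iff_map_eq_zero]
  intro y hy
  refine eq_zero_of_Fil fun k => ?_
  induction k with
  | zero => exact mem_Fil_zero _
  | succ k ih =>
    have := h k y ih
    rwa [hy, zero_sub, Submodule.neg_mem_iff] at this

/-- the automorphism group -/
abbrev Au (F : Type*) [Field F] (L : Type*) [AddCommGroup L] [Module F L] :=
  ExteriorAlgebra F L ≃ₐ[F] ExteriorAlgebra F L

theorem au_mem_Fil (θ : Au F L) {k : ℕ} {y : ExteriorAlgebra F L} (hy : y ∈ Fil k) :
    θ y ∈ Fil k := map_mem_Fil θ.toAlgHom hy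

theorem FU_one : FU (1 : Au F L) := fun _ y _ => by simp

theorem FU.mul {θ η : Au F L} (h : FU θ) (h' : FU η) : FU (θ * η) := fun k y hy => by
  have := Submodule.add_mem _ (h k _ (h'.mem hy)) (h' k y hy)
  rwa [sub_add_sub_cancel] at this

theorem FU.inv {θ : Au F L} (h : FU θ) : FU (θ⁻¹ : Au F L) := fun k y hy => by
  have := Submodule.neg_mem _ (h k _ (au_mem_Fil θ⁻¹ hy))
  rw [neg_sub] at this
  simpa using this

theorem FU.conj {θ : Au F L} (h : FU θ) (c : Au F L) : FU (c * θ * c⁻¹) := fun k y hy => by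
  have := au_mem_Fil c (h k _ (au_mem_Fil c⁻¹ hy))
  rw [map_sub] at this
  simpa using this

theorem sqrt_unique (h2 : (2 : F) ≠ 0) {s t : Au F L} (hs : FU s) (ht : FU t)
    (h : s * s = t * t) : s = t := by
  have key : ∀ n k y, y ∈ Fil k → s y - t y ∈ Fil (k + n) := by
    intro n
    induction n with
    | zero => intro k y hy; exact Submodule.sub_mem _ (hs.mem hy) (ht.mem hy)
    | succ n ih =>
      intro k y hy
      refine mem_of_two h2 ?_
      have h1 := hs _ _ (ih k y hy)
      have h3 := ih _ _ (ht k y hy)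
      rw [show k + 1 + n = k + n + 1 by ring] at h3
      have h4 : s (s y) = t (t y) := DFunLike.congr_fun h y
      have h5 := Submodule.neg_mem _ (Submodule.add_mem _ h1 h3)
      have : s y - t y + (s y - t y) =
          - (s (s y - t y) - (s y - t y) + (s (t y - y) - t (t y - y))) := by
        rw [map_sub, map_sub, map_sub, h4]; abel
      rw [this]; exact h5
  ext y
  rw [← sub_eq_zero]
  exact eq_zero_of_Fil fun k => by simpa using key k 0 y (mem_Fil_zero y)

open Polynomial in
theorem poly_sqrt (h2 : (2 : F) ≠ 0) (k : ℕ) :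
    ∃ q : F[X], X ^ (k + 1) ∣ (1 + X * q) ^ 2 - (1 + X) := by
  induction k with
  | zero => exact ⟨0, -1, by ring⟩
  | succ k ih =>
    obtain ⟨q, r, hr⟩ := ih
    refine ⟨q - X ^ k * r * C 2⁻¹, - (r * q) + X ^ k * r ^ 2 * C 2⁻¹ ^ 2, ?_⟩
    have h : (C 2⁻¹ : F[X]) * 2 = 1 := by
      rw [show (2 : F[X]) = C 2 from rfl, ← C_mul, inv_mul_cancel₀ h2, C_1]
    linear_combination hr - (X ^ (k + 1) * r * (1 + X * q)) * h

theorem exists_sqrt (h2 : (2 : F) ≠ 0) (θ : Au F L) (hθ : FU θ)
    (hn : IsNilpotent (θ.toLinearMap - 1 : Module.End F (ExteriorAlgebra F L))) :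
    ∃ s : Au F L, FU s ∧ s * s = θ ∧
      IsNilpotent (s.toLinearMap - 1 : Module.End F (ExteriorAlgebra F L)) ∧
      (∀ V : Submodule F (ExteriorAlgebra F L), (∀ y ∈ V, θ y ∈ V) → ∀ y ∈ V, s y ∈ V) ∧
      (∀ y, ∃ z, s y - y = θ z - z) ∧ (∀ y, θ y = y → s y = y) := by
  set D : Module.End F (ExteriorAlgebra F L) := θ.toLinearMap - 1 with hD
  have hDy : ∀ y, D y = θ y - y := fun y => rfl
  obtain ⟨k, hk⟩ := hn
  obtain ⟨q, r, hr⟩ := poly_sqrt h2 k
  set Q := Polynomial.aeval D q with hQ
  have hcomm : Commute D Q := by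
    have := (Commute.all Polynomial.X q).map (Polynomial.aeval D)
    rwa [Polynomial.aeval_X] at this
  have hsq : (1 + D * Q) * (1 + D * Q) = 1 + D := by
    have := congrArg (Polynomial.aeval D) hr
    simp only [map_sub, map_pow, map_add, map_one, map_mul, Polynomial.aeval_X] at this
    rw [pow_succ D, hk, zero_mul, zero_mul, sub_eq_zero, pow_two] at this
    exact this
  have hQV : ∀ V : Submodule F (ExteriorAlgebra F L), (∀ y ∈ V, D y ∈ V) → ∀ y ∈ V, Q y ∈ V :=
    fun V hV y hy => Polynomial.aeval_apply_smul_mem_of_le_comap' hy q D (fun z hz => hV z hz)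
  set S : Module.End F (ExteriorAlgebra F L) := 1 + D * Q with hS
  have hSy : ∀ y, S y - y = D (Q y) := fun y => by simp [hS]
  have hSS : ∀ y, S (S y) = θ y := fun y => by
    have := DFunLike.congr_fun hsq y
    rw [Module.End.mul_apply] at this
    rw [this]; simp [hDy]
  have hFU : FU S := fun j y hy => by
    rw [hSy, hDy]
    exact hθ j _ (hQV _ (fun z hz => Fil_anti (hθ j z hz)) y hy)
  have hfix : ∀ y, θ y = y → S y = y := fun y hy => by
    rw [← sub_eq_zero, hSy, ← Module.End.mul_apply, hcomm.eq, Module.End.mul_apply, hDy, hy,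
      sub_self, map_zero]
  have hmul : ∀ n i j a b, a ∈ Fil i → b ∈ Fil j → S (a * b) - S a * S b ∈ Fil (i + j + n) := by
    intro n
    induction n with
    | zero =>
      intro i j a b ha hb
      exact Submodule.sub_mem _ (hFU.mem (mul_mem_Fil' ha hb rfl))
        (mul_mem_Fil' (hFU.mem ha) (hFU.mem hb) rfl)
    | succ n ih =>
      intro i j a b ha hb
      refine mem_of_two h2 ?_
      have h1 := hFU _ _ (ih i j a b ha hb)
      have h3 := ih _ _ _ _ (hFU i a ha) (hFU.mem hb)
      have h4 := ih _ _ _ _ ha (hFU j b hb)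
      rw [show i + 1 + j + n = i + j + n + 1 by ring] at h3
      rw [show i + (j + 1) + n = i + j + n + 1 by ring] at h4
      have h5 := Submodule.neg_mem _ (Submodule.add_mem _ (Submodule.add_mem _ h1 h3) h4)
      have : S (a * b) - S a * S b + (S (a * b) - S a * S b) =
          - (S (S (a * b) - S a * S b) - (S (a * b) - S a * S b) +
            (S ((S a - a) * S b) - S (S a - a) * S (S b)) +
            (S (a * (S b - b)) - S a * S (S b - b))) := by
        simp only [sub_mul, mul_sub, map_sub, hSS, map_mul]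
        abel
      rw [this]; exact h5
  have hmul' : ∀ a b, S (a * b) = S a * S b := fun a b => by
    rw [← sub_eq_zero]
    exact eq_zero_of_Fil fun n => by
      simpa using hmul n 0 0 a b (mem_Fil_zero a) (mem_Fil_zero b)
  let s₀ : ExteriorAlgebra F L →ₐ[F] ExteriorAlgebra F L :=
    AlgHom.ofLinearMap S (hfix 1 (map_one θ)) hmul'
  have hbij : Function.Bijective s₀ := by
    refine ⟨fun a b hab => θ.injective ?_, fun y => ⟨S (θ.symm y), ?_⟩⟩
    · rw [← hSS, ← hSS]; exact congrArg S hab
    · exact (hSS _).trans (θ.apply_symm_apply y)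
  refine ⟨AlgEquiv.ofBijective s₀ hbij, hFU, AlgEquiv.ext hSS, ?_, fun V hV y hy => ?_,
    fun y => ⟨Q y, hSy y⟩, hfix⟩
  · have : ((AlgEquiv.ofBijective s₀ hbij).toLinearMap - 1 : Module.End F (ExteriorAlgebra F L))
        = D * Q := LinearMap.ext hSy
    rw [this]
    exact hcomm.isNilpotent_mul_right ⟨k, hk⟩
  · have hDV : ∀ z ∈ V, D z ∈ V := fun z hz => V.sub_mem (hV z hz) hz
    have := V.add_mem (hDV _ (hQV V hDV y hy)) hy
    rw [← hSy, sub_add_cancel] at this
    exact this

end Pool.Agent.H6Z.Grass
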