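import Pool.Agent.H6Z.Grass.Nil

/-!
The extension step: invariant finite-dimensional free subalgebras.
-/

set_option autoImplicit false

namespace Pool.Agent.H6Z.Grass

open ExteriorAlgebra

variable {F : Type*} [Field F] {L : Type*} [AddCommGroup L] [Module F L]

/-- parity preserving maps -/
def Ev (θ : ExteriorAlgebra F L → ExteriorAlgebra F L) : Prop := ∀ y, θ (sg y) = sg (θ y)

/-- the canonical involution as an automorphism -/
noncomputable def sgA : Au F L := CliffordAlgebra.involuteEquiv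

theorem sgA_apply (y : ExteriorAlgebra F L) : sgA y = sg y := rfl

theorem sgA_mul_self : (sgA * sgA : Au F L) = 1 := AlgEquiv.ext sg_sg

theorem Ev_iff {θ : Au F L} : Ev θ ↔ θ * sgA = sgA * θ :=
  ⟨fun h => AlgEquiv.ext h, fun h y => DFunLike.congr_fun h y⟩

theorem Ev_of_gen (θ : ExteriorAlgebra F L →ₐ[F] ExteriorAlgebra F L)
    (h : ∀ v, sg (θ (ι F v)) = - θ (ι F v)) : Ev θ := by
  have : θ.comp sg = sg.comp θ := by
    refine ExteriorAlgebra.hom_ext (LinearMap.ext fun v => ?_)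
    change θ (sg (ι F v)) = sg (θ (ι F v))
    rw [h, sg_ι, map_neg]
  exact fun y => DFunLike.congr_fun this y

theorem Ev.odd {θ : Au F L} (h : Ev θ) {y : ExteriorAlgebra F L} (hy : sg y = -y) :
    sg (θ y) = - θ y := by rw [← h, hy, map_neg]

/-- the group of finitely supported unipotent even automorphisms fixing `X` pointwise -/
def UG (X : Submodule F (ExteriorAlgebra F L)) : Subgroup (Au F L) where
  carrier := {θ | FU θ ∧ FS θ ∧ Ev θ ∧ ∀ x ∈ X, θ x = x}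
  one_mem' := ⟨FU_one, FS_one, fun _ => rfl, fun _ _ => rfl⟩
  mul_mem' := fun {θ η} h h' => ⟨h.1.mul h'.1, h.2.1.mul h'.2.1,
    fun y => by rw [AlgEquiv.mul_apply, AlgEquiv.mul_apply, h'.2.2.1, h.2.2.1],
    fun x hx => by rw [AlgEquiv.mul_apply, h'.2.2.2 x hx, h.2.2.2 x hx]⟩
  inv_mem' := fun {θ} h => ⟨h.1.inv, h.2.1.inv,
    Ev_iff.2 (Commute.inv_left (Ev_iff.1 h.2.2.1)), fun x hx => by
      apply θ.injective
      rw [h.2.2.2 x hx]; simp⟩

theorem UG_conj {X : Submodule F (ExteriorAlgebra F L)} {φ θ : Au F L} (hφ : φ * φ = 1)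
    (hev : Ev φ) (hX : ∀ x ∈ X, φ x ∈ X) (h : θ ∈ UG X) : φ * θ * φ ∈ UG X := by
  have hi : φ⁻¹ = φ := inv_eq_of_mul_eq_one_right hφ
  have h1 := h.1.conj φ
  have h2 := h.2.1.conj φ
  rw [hi] at h1 h2
  refine ⟨h1, h2, Ev_iff.2 ?_, fun x hx => ?_⟩
  · exact ((Commute.mul_left (Ev_iff.1 hev) (Ev_iff.1 h.2.2.1)).mul_left (Ev_iff.1 hev))
  · rw [AlgEquiv.mul_apply, AlgEquiv.mul_apply, h.2.2.2 _ (hX x hx), ← AlgEquiv.mul_apply, hφ]
    rfl

theorem UG_sqrt (h2 : (2 : F) ≠ 0) {X : Submodule F (ExteriorAlgebra F L)} {θ : Au F L}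
    (h : θ ∈ UG X) : ∃ s ∈ UG X, s * s = θ ∧
      ∀ V : Submodule F (ExteriorAlgebra F L), (∀ y ∈ V, θ y ∈ V) → ∀ y ∈ V, s y ∈ V := by
  obtain ⟨s, h1, h3, -, h4, h5, h6⟩ := exists_sqrt h2 θ h.1 (nilpotent_of θ.toAlgHom h.1 h.2.1)
  refine ⟨s, ⟨h1, ?_, Ev_iff.2 ?_, fun x hx => h6 x (h.2.2.2 x hx)⟩, h3, h4⟩
  · obtain ⟨W, hW, hN⟩ := h.2.1
    refine ⟨W, hW, fun y => ?_⟩
    obtain ⟨z, hz⟩ := h5 y
    rw [hz]; exact hN z
  · have := sqrt_unique h2 (h1.conj sgA) h1 (by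
      have h7 := Ev_iff.1 h.2.2.1
      calc sgA * s * sgA⁻¹ * (sgA * s * sgA⁻¹) = sgA * (s * s) * sgA⁻¹ := by group
        _ = s * s := by rw [h3, ← h7]; group)
    calc s * sgA = sgA * s * sgA⁻¹ * sgA := by rw [this]
      _ = sgA * s := by group

theorem conj_step (h2 : (2 : F) ≠ 0) {X : Submodule F (ExteriorAlgebra F L)} {φ g : Au F L}
    (hφ : φ * φ = 1) (hev : Ev φ) (hX : ∀ x ∈ X, φ x ∈ X) (hg : g ∈ UG X)
    (A : Submodule F (ExteriorAlgebra F L)) (hA : ∀ a ∈ A, (g⁻¹ * φ) a ∈ A) :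
    ∃ v ∈ UG X, ∀ a ∈ A, (v * φ * v⁻¹) a ∈ A := by
  have hi : φ⁻¹ = φ := inv_eq_of_mul_eq_one_right hφ
  set γ := g⁻¹ * φ with hγ
  have h1 : γ * γ ∈ UG X := by
    have := (UG X).mul_mem ((UG X).inv_mem hg) (UG_conj hφ hev hX ((UG X).inv_mem hg))
    convert this using 1
    rw [hγ]; group
  obtain ⟨s, hs, hss, hsV⟩ := UG_sqrt h2 h1
  have hsA := hsV A fun y hy => hA _ (hA y hy)
  have hc : γ * s * γ⁻¹ = s := sqrt_unique h2 (hs.1.conj γ) hs.1 (by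
    calc γ * s * γ⁻¹ * (γ * s * γ⁻¹) = γ * (s * s) * γ⁻¹ := by group
      _ = s * s := by rw [hss]; group)
  set t := γ * s⁻¹ with ht
  have htt : t * t = 1 := by
    calc t * t = (γ * s * γ⁻¹)⁻¹ * (γ * γ) * s⁻¹ := by rw [ht]; group
      _ = 1 := by rw [hc, ← hss]; group
  have htA : ∀ a ∈ A, t a ∈ A := fun a ha => by
    obtain ⟨z, hz, rfl⟩ := surj_on s.toAlgHom hs.1 hs.2.1 A hsA a ha
    have : t (s z) = γ z := by
      rw [← AlgEquiv.mul_apply, ht, inv_mul_cancel_right]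
    exact this ▸ hA z hz
  have hu : t * φ ∈ UG X := by
    have := (UG X).mul_mem ((UG X).inv_mem hg) (UG_conj hφ hev hX ((UG X).inv_mem hs))
    convert this using 1
    rw [ht, hγ]; group
  obtain ⟨v, hv, hvv, -⟩ := UG_sqrt h2 hu
  have hti : t⁻¹ = t := inv_eq_of_mul_eq_one_right htt
  have hc2 : φ * v * φ⁻¹ = v⁻¹ := sqrt_unique h2 (hv.1.conj φ) hv.1.inv (by
    calc φ * v * φ⁻¹ * (φ * v * φ⁻¹) = φ * (v * v) * φ⁻¹ := by group
      _ = φ⁻¹ * t⁻¹ := by rw [hvv, hti, mul_assoc, mul_inv_cancel_right, hi]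
      _ = (v * v)⁻¹ := by rw [hvv]; group
      _ = v⁻¹ * v⁻¹ := by group)
  refine ⟨v, hv, fun a ha => ?_⟩
  have : v * φ * v⁻¹ = t := by
    calc v * φ * v⁻¹ = v * (φ * v * φ⁻¹)⁻¹ * φ := by group
      _ = v * v * φ := by rw [hc2, inv_inv]
      _ = t := by rw [hvv, mul_assoc, hφ, mul_one]
  rw [this]; exact htA a ha

theorem exists_proj (W : Submodule F L) : ∃ p : L →ₗ[F] L, (∀ v, p v ∈ W) ∧ ∀ w ∈ W, p w = w := by
  obtain ⟨r, hr⟩ := W.subtype.exists_leftInverse_of_injective W.ker_subtype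
  refine ⟨W.subtype ∘ₗ r, fun v => (r v).2, fun w hw => ?_⟩
  have := DFunLike.congr_fun hr ⟨w, hw⟩
  exact congrArg Subtype.val this

theorem exists_mk (h2 : (2 : F) ≠ 0) {W : Submodule F L} (hW : W.FG)
    (m : L →ₗ[F] ExteriorAlgebra F L) (ho : ∀ w ∈ W, sg (m w) = - m w)
    (hl : ∀ w ∈ W, ιInv (m w) = w) : ∃ θ ∈ UG (F := F) (L := L) ⊥, ∀ w ∈ W, θ (ι F w) = m w := by
  obtain ⟨p, hp, hp'⟩ := exists_proj W
  let f : L →ₗ[F] ExteriorAlgebra F L := m ∘ₗ p + ι F ∘ₗ (LinearMap.id - p)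
  have hf : ∀ v, f v = m (p v) + ι F (v - p v) := fun v => rfl
  have hfo : ∀ v, sg (f v) = - f v := fun v => by
    rw [hf, map_add, ho _ (hp v), sg_ι, neg_add]
  let θ := ExteriorAlgebra.lift F ⟨f, fun v => odd_sq h2 (hfo v)⟩
  have hθ : ∀ v, θ (ι F v) = f v := fun v => lift_ι_apply F _ _ v
  have hd : ∀ v, θ (ι F v) - ι F v = m (p v) - ι F (p v) := fun v => by
    rw [hθ, hf, map_sub]; abel
  have hd1 : ∀ w ∈ W, m w - ι F w ∈ Fil 1 := fun w hw =>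
    Submodule.sub_mem _ (odd_mem_Fil h2 (ho w hw)) (ι_mem_Fil w)
  have hU : FU θ := FU_of_gen θ fun v => by
    rw [hd]
    exact mem_Fil_two (hd1 _ (hp v)) (by rw [map_sub, hl _ (hp v), ιInv_ι, sub_self])
  obtain ⟨V, hV, hVN⟩ := exists_N_of_fg (W.map (m - ι F)) (hW.map _) (by
    rintro _ ⟨w, hw, rfl⟩
    exact hd1 w hw)
  have hS : FS θ := FS_of_gen θ hV fun v => by
    rw [hd]
    exact hVN ⟨p v, hp v, rfl⟩
  refine ⟨AlgEquiv.ofBijective θ (bijective_of θ hU hS), ⟨hU, hS, ?_, ?_⟩, fun w hw => ?_⟩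
  · exact Ev_of_gen θ fun v => by rw [hθ, hfo]
  · intro x hx
    rw [(Submodule.mem_bot F).1 hx, map_zero]
  · change θ (ι F w) = m w
    rw [hθ, hf, hp' w hw, sub_self, map_zero, add_zero]

/-- the subalgebra generated by a subspace of generators -/
noncomputable def A (W : Submodule F L) : Subalgebra F (ExteriorAlgebra F L) :=
  Algebra.adjoin F (P W : Set (ExteriorAlgebra F L))

theorem ι_mem_A {W : Submodule F L} {w : L} (hw : w ∈ W) : ι F w ∈ A W :=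
  Algebra.subset_adjoin ⟨w, hw, rfl⟩

theorem A_map {W : Submodule F L} (θ : ExteriorAlgebra F L →ₐ[F] ExteriorAlgebra F L)
    (B : Subalgebra F (ExteriorAlgebra F L)) (h : ∀ w ∈ W, θ (ι F w) ∈ B) :
    ∀ y ∈ A W, θ y ∈ B := by
  have : A W ≤ B.comap θ := Algebra.adjoin_le (by
    rintro _ ⟨w, hw, rfl⟩
    exact h w hw)
  exact fun y hy => this hy

theorem A_ext {W : Submodule F L} (θ η : ExteriorAlgebra F L →ₐ[F] ExteriorAlgebra F L)
    (h : ∀ w ∈ W, θ (ι F w) = η (ι F w)) : ∀ y ∈ A W, θ y = η y := by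
  have : A W ≤ AlgHom.equalizer θ η := Algebra.adjoin_le (by
    rintro _ ⟨w, hw, rfl⟩
    exact h w hw)
  exact fun y hy => this hy

theorem A_mono {W W' : Submodule F L} (h : W ≤ W') : A W ≤ A W' :=
  Algebra.adjoin_mono (P_mono h)

theorem map_mem_A {W : Submodule F L} (p : L →ₗ[F] L) (hp : ∀ v, p v ∈ W)
    (y : ExteriorAlgebra F L) : ExteriorAlgebra.map p y ∈ A W := by
  induction y using CliffordAlgebra.left_induction with
  | algebraMap r => rw [AlgHom.commutes]; exact Subalgebra.algebraMap_mem _ r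
  | add a b ha hb => rw [map_add]; exact Subalgebra.add_mem _ ha hb
  | ι_mul z v hz =>
    rw [map_mul, map_apply_ι]
    exact Subalgebra.mul_mem _ (ι_mem_A (hp v)) hz

theorem exists_A_of_mem (y : ExteriorAlgebra F L) : ∃ W : Submodule F L, W.FG ∧ y ∈ A W := by
  induction y using CliffordAlgebra.left_induction with
  | algebraMap r => exact ⟨⊥, Submodule.fg_bot, Subalgebra.algebraMap_mem _ r⟩
  | add a b ha hb =>
    obtain ⟨W, hW, ha⟩ := ha
    obtain ⟨W', hW', hb⟩ := hb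
    exact ⟨W ⊔ W', hW.sup hW', Subalgebra.add_mem _ (A_mono le_sup_left ha)
      (A_mono le_sup_right hb)⟩
  | ι_mul z v hz =>
    obtain ⟨W, hW, ha⟩ := hz
    exact ⟨W ⊔ F ∙ v, hW.sup (Submodule.fg_span_singleton v), Subalgebra.mul_mem _
      (ι_mem_A (Submodule.mem_sup_right (Submodule.mem_span_singleton_self v)))
      (A_mono le_sup_left ha)⟩

theorem ιInv_map_apply (p : L →ₗ[F] L) (y : ExteriorAlgebra F L) :
    ιInv (ExteriorAlgebra.map p y) = p (ιInv y) :=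
  DFunLike.congr_fun (ιInv_comp_map p) y

theorem ιInv_mem_of_A {W : Submodule F L} {y : ExteriorAlgebra F L} (hy : y ∈ A W) :
    ιInv y ∈ W := by
  obtain ⟨p, hp, hp'⟩ := exists_proj W
  have := A_ext (ExteriorAlgebra.map p) (AlgHom.id F _)
    (fun w hw => by rw [map_apply_ι, hp' w hw]; rfl) y hy
  rw [AlgHom.id_apply] at this
  rw [← this, ιInv_map_apply]
  exact hp _

/-- the linear part -/
noncomputable def lin (φ : Au F L) : L →ₗ[F] L := ιInv ∘ₗ φ.toLinearMap ∘ₗ ι F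

theorem lin_apply (φ : Au F L) (v : L) : lin φ v = ιInv (φ (ι F v)) := rfl

theorem ιInv_au (φ : Au F L) {y : ExteriorAlgebra F L} (hy : y ∈ Fil 1) :
    ιInv (φ y) = lin φ (ιInv y) := ιInv_map φ.toAlgHom hy

theorem lin_lin {φ : Au F L} (hφ : φ * φ = 1) (v : L) : lin φ (lin φ v) = v := by
  rw [lin_apply φ v, ← ιInv_au φ (au_mem_Fil φ (ι_mem_Fil v)), ← AlgEquiv.mul_apply, hφ]
  exact ιInv_ι v

/-- finite-dimensional invariant spaces of odd elements that are independent modulo degree two -/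
def Good (φ : Au F L) (U : Submodule F (ExteriorAlgebra F L)) : Prop :=
  U.FG ∧ (∀ u ∈ U, sg u = -u) ∧ (∀ u ∈ U, φ u ∈ U) ∧ ∀ u ∈ U, ιInv u = 0 → u = 0

theorem lin_step (h2 : (2 : F) ≠ 0) {t : Au F L} (ht : t * t = 1) (hev : Ev t)
    {W : Submodule F L} (hW : W.FG) (hA : ∀ a ∈ A W, t a ∈ A W)
    {U : Submodule F (ExteriorAlgebra F L)} (hU : Good t U) (hUA : ∀ u ∈ U, u ∈ A W) :
    ∃ U', U ≤ U' ∧ Good t U' ∧ A W ≤ Algebra.adjoin F (U' : Set (ExteriorAlgebra F L)) := by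
  have htt : ∀ y, t (t y) = y := fun y => DFunLike.congr_fun ht y
  obtain ⟨r, hr⟩ := (ιInv ∘ₗ U.subtype).exists_leftInverse_of_injective (by
    rw [LinearMap.ker_eq_bot']
    intro u hu
    exact Subtype.ext (hU.2.2.2 u u.2 hu))
  have hr' : ∀ u (hu : u ∈ U), (r (ιInv u) : ExteriorAlgebra F L) = u := fun u hu =>
    congrArg Subtype.val (DFunLike.congr_fun hr ⟨u, hu⟩)
  let l₀ : L →ₗ[F] ExteriorAlgebra F L := ι F + (U.subtype - ι F ∘ₗ ιInv ∘ₗ U.subtype) ∘ₗ r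
  have hl₀ : ∀ v, l₀ v = ι F v + (r v - ι F (ιInv (r v : ExteriorAlgebra F L))) := fun v => rfl
  have ho₀ : ∀ v, sg (l₀ v) = - l₀ v := fun v => by
    rw [hl₀, map_add, map_sub, sg_ι, sg_ι, hU.2.1 _ (r v).2]; abel
  have hi₀ : ∀ v, ιInv (l₀ v) = v := fun v => by
    rw [hl₀, map_add, map_sub, ιInv_ι, ιInv_ι, sub_self, add_zero]
  have hA₀ : ∀ w ∈ W, l₀ w ∈ A W := fun w hw => by
    rw [hl₀]
    exact Subalgebra.add_mem _ (ι_mem_A hw) (Subalgebra.sub_mem _ (hUA _ (r w).2)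
      (ι_mem_A (ιInv_mem_of_A (hUA _ (r w).2))))
  have hu₀ : ∀ u ∈ U, l₀ (ιInv u) = u := fun u hu => by
    rw [hl₀, hr' u hu]; abel
  have hWt : ∀ w ∈ W, lin t w ∈ W := fun w hw => ιInv_mem_of_A (hA _ (ι_mem_A hw))
  let l : L →ₗ[F] ExteriorAlgebra F L := (2 : F)⁻¹ • (l₀ + t.toLinearMap ∘ₗ l₀ ∘ₗ lin t)
  have hl : ∀ v, l v = (2 : F)⁻¹ • (l₀ v + t (l₀ (lin t v))) := fun v => rfl
  have ho : ∀ v, sg (l v) = - l v := fun v => by
    rw [hl, map_smul, map_add, ho₀, hev.odd (ho₀ _), ← neg_add, smul_neg]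
  have hi : ∀ v, ιInv (l v) = v := fun v => by
    rw [hl, map_smul, map_add, hi₀, ιInv_au t (odd_mem_Fil h2 (ho₀ _)), hi₀, lin_lin ht]
    rw [← two_smul F, smul_smul, inv_mul_cancel₀ h2, one_smul]
  have hlA : ∀ w ∈ W, l w ∈ A W := fun w hw => by
    rw [hl]
    exact Subalgebra.smul_mem _ (Subalgebra.add_mem _ (hA₀ w hw) (hA _ (hA₀ _ (hWt w hw)))) _
  have htl : ∀ v, t (l v) = l (lin t v) := fun v => by
    rw [hl, hl, map_smul, map_add, htt, lin_lin ht, add_comm]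
  refine ⟨W.map l, fun u hu => ⟨ιInv u, ιInv_mem_of_A (hUA u hu), ?_⟩, ⟨hW.map _, ?_, ?_, ?_⟩, ?_⟩
  · rw [hl, hu₀ u hu, ← ιInv_au t (odd_mem_Fil h2 (hU.2.1 u hu)), hu₀ _ (hU.2.2.1 u hu), htt]
    rw [← two_smul F, smul_smul, inv_mul_cancel₀ h2, one_smul]
  · rintro _ ⟨w, -, rfl⟩
    exact ho w
  · rintro _ ⟨w, hw, rfl⟩
    exact ⟨lin t w, hWt w hw, (htl w).symm⟩
  · rintro _ ⟨w, -, rfl⟩ h
    rw [hi] at h
    rw [h, map_zero]
  · obtain ⟨θ, hθ, hθw⟩ := exists_mk h2 hW l (fun w _ => ho w) fun w _ => hi w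
    intro a ha
    obtain ⟨z, hz, rfl⟩ := surj_on θ.toAlgHom hθ.1 hθ.2.1 (Subalgebra.toSubmodule (A W))
      (A_map θ.toAlgHom _ fun w hw => by
        change θ (ι F w) ∈ _
        rw [hθw w hw]; exact hlA w hw) a ha
    refine A_map θ.toAlgHom _ (fun w hw => ?_) z hz
    change θ (ι F w) ∈ _
    rw [hθw w hw]
    exact Algebra.subset_adjoin ⟨w, hw, rfl⟩

theorem step (h2 : (2 : F) ≠ 0) {φ : Au F L} (hφ : φ * φ = 1) (hev : Ev φ)
    {U : Submodule F (ExteriorAlgebra F L)} (hU : Good φ U) (x : ExteriorAlgebra F L) :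
    ∃ U', U ≤ U' ∧ Good φ U' ∧ x ∈ Algebra.adjoin F (U' : Set (ExteriorAlgebra F L)) := by
  have hφφ : ∀ y, φ (φ y) = y := fun y => DFunLike.congr_fun hφ y
  set X : Submodule F (ExteriorAlgebra F L) := U ⊔ (F ∙ x ⊔ F ∙ φ x) with hX
  have hXfg : X.FG :=
    hU.1.sup ((Submodule.fg_span_singleton _).sup (Submodule.fg_span_singleton _))
  have hxX : x ∈ X :=
    Submodule.mem_sup_right (Submodule.mem_sup_left (Submodule.mem_span_singleton_self _))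
  have hXφ : ∀ y ∈ X, φ y ∈ X := by
    have : X ≤ X.comap φ.toLinearMap := by
      refine sup_le (fun u hu => Submodule.mem_sup_left (hU.2.2.1 u hu)) (sup_le ?_ ?_)
      · rw [Submodule.span_singleton_le_iff_mem]
        exact Submodule.mem_sup_right
          (Submodule.mem_sup_right (Submodule.mem_span_singleton_self _))
      · rw [Submodule.span_singleton_le_iff_mem]
        change φ (φ x) ∈ X
        rw [hφφ]; exact hxX
    exact fun y hy => this hy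
  obtain ⟨W₀, hW₀, hXW₀⟩ := exists_fg_of_fg (fun W => Subalgebra.toSubmodule (A W))
    (fun _ _ h => A_mono h) X hXfg fun y _ => exists_A_of_mem y
  set W := W₀ ⊔ W₀.map (lin φ) with hWdef
  have hW : W.FG := hW₀.sup (hW₀.map _)
  have hXW : ∀ y ∈ X, y ∈ A W := fun y hy => A_mono le_sup_left (hXW₀ hy)
  have hWφ : ∀ w ∈ W, lin φ w ∈ W := by
    have : W ≤ W.comap (lin φ) := by
      refine sup_le (fun w hw => Submodule.mem_sup_right ⟨w, hw, rfl⟩) ?_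
      rintro _ ⟨w, hw, rfl⟩
      change lin φ (lin φ w) ∈ W
      rw [lin_lin hφ]; exact Submodule.mem_sup_left hw
    exact fun y hy => this hy
  obtain ⟨p, hp, hp'⟩ := exists_proj W
  let ψ := ExteriorAlgebra.map (lin φ)
  let ρ := ExteriorAlgebra.map p
  have hψψ : ∀ y, ψ (ψ y) = y := fun y => by
    have : ψ.comp ψ = AlgHom.id F _ := by
      refine ExteriorAlgebra.hom_ext (LinearMap.ext fun v => ?_)
      change ψ (ψ (ι F v)) = ι F v
      rw [map_apply_ι, map_apply_ι, lin_lin hφ]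
    exact DFunLike.congr_fun this y
  have hψA : ∀ a ∈ A W, ψ a ∈ A W := A_map ψ _ fun w hw => by
    rw [map_apply_ι]; exact ι_mem_A (hWφ w hw)
  have hρA : ∀ a ∈ A W, ρ a = a := A_ext ρ (AlgHom.id F _) fun w hw => by
    rw [map_apply_ι, hp' w hw]; rfl
  have hρev : Ev ρ := Ev_of_gen ρ fun v => by rw [map_apply_ι, sg_ι]
  obtain ⟨k, hk, hkw⟩ := exists_mk h2 hW (φ.toLinearMap ∘ₗ ι F ∘ₗ lin φ)
    (fun w _ => hev.odd (sg_ι _)) fun w _ => lin_lin hφ w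
  obtain ⟨b, hb, hbw⟩ := exists_mk h2 hW (ρ.toLinearMap ∘ₗ φ.toLinearMap ∘ₗ ι F ∘ₗ lin φ)
    (fun w _ => by
      change sg (ρ (φ (ι F (lin φ w)))) = - ρ (φ (ι F (lin φ w)))
      rw [← hρev, hev.odd (sg_ι _), map_neg]) fun w hw => by
      change ιInv (ρ (φ (ι F (lin φ w)))) = w
      rw [ιInv_map_apply, ← lin_apply, lin_lin hφ, hp' w hw]
  have hkA : ∀ a ∈ A W, k a = φ (ψ a) := A_ext k.toAlgHom (φ.toAlgHom.comp ψ) fun w hw => by
    change k (ι F w) = φ (ψ (ι F w))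
    rw [hkw w hw, map_apply_ι]; rfl
  have hbA : ∀ a ∈ A W, b a = ρ (φ (ψ a)) :=
    A_ext b.toAlgHom (ρ.comp (φ.toAlgHom.comp ψ)) fun w hw => by
      change b (ι F w) = ρ (φ (ψ (ι F w)))
      rw [hbw w hw, map_apply_ι]; rfl
  have hg0 := (UG ⊥).mul_mem hk ((UG ⊥).inv_mem hb)
  have hg : k * b⁻¹ ∈ UG X := ⟨hg0.1, hg0.2.1, hg0.2.2.1, fun y hy => by
    have h1 := hψA _ (hXW _ (hXφ y hy))
    have h3 : b (ψ (φ y)) = y := by rw [hbA _ h1, hψψ, hφφ, hρA y (hXW y hy)]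
    have h4 : b⁻¹ y = ψ (φ y) := by
      apply b.injective
      rw [h3]; simp
    rw [AlgEquiv.mul_apply, h4, hkA _ h1, hψψ, hφφ]⟩
  obtain ⟨v, hv, hvA⟩ := conj_step h2 hφ hev hXφ hg (Subalgebra.toSubmodule (A W)) (fun a ha => by
    have h1 : k⁻¹ (φ a) = ψ a := by
      apply k.injective
      rw [hkA _ (hψA a ha), hψψ]; simp
    rw [mul_inv_rev, inv_inv, AlgEquiv.mul_apply, AlgEquiv.mul_apply, h1, hbA _ (hψA a ha)]
    exact map_mem_A p hp _)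
  have hv' := (UG X).inv_mem hv
  set t := v * φ * v⁻¹ with ht
  have htt : t * t = 1 := by
    calc t * t = v * (φ * φ) * v⁻¹ := by rw [ht]; group
      _ = 1 := by rw [hφ]; group
  have htev : Ev t := Ev_iff.2
    ((Commute.mul_left (Ev_iff.1 hv.2.2.1) (Ev_iff.1 hev)).mul_left (Ev_iff.1 hv'.2.2.1))
  have hUt : Good t U := ⟨hU.1, hU.2.1, fun u hu => by
    rw [ht, AlgEquiv.mul_apply, AlgEquiv.mul_apply, hv'.2.2.2 u (Submodule.mem_sup_left hu),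
      hv.2.2.2 _ (Submodule.mem_sup_left (hU.2.2.1 u hu))]
    exact hU.2.2.1 u hu, hU.2.2.2⟩
  obtain ⟨U', h1, h3, h4⟩ := lin_step h2 htt htev hW hvA hUt
    fun u hu => hXW u (Submodule.mem_sup_left hu)
  refine ⟨U'.map (v⁻¹ : Au F L).toLinearMap,
    fun u hu => ⟨u, h1 hu, hv'.2.2.2 u (Submodule.mem_sup_left hu)⟩, ⟨h3.1.map _, ?_, ?_, ?_⟩, ?_⟩
  · rintro _ ⟨u, hu, rfl⟩
    exact hv'.2.2.1.odd (h3.2.1 u hu)
  · rintro _ ⟨u, hu, rfl⟩
    refine ⟨t u, h3.2.2.1 u hu, ?_⟩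
    change (v⁻¹ * t) u = (φ * v⁻¹) u
    rw [ht]; group
  · rintro _ ⟨u, hu, rfl⟩ h
    have h5 : ιInv ((v⁻¹ : Au F L) u) = ιInv u := hv'.1.ιInv (odd_mem_Fil h2 (h3.2.1 u hu))
    have h6 : u = 0 := h3.2.2.2 u hu (h5 ▸ h)
    rw [h6, map_zero]
  · have h5 : (v⁻¹ : Au F L).toAlgHom x ∈ (Algebra.adjoin F (U' : Set (ExteriorAlgebra F L))).map
        (v⁻¹ : Au F L).toAlgHom := ⟨x, h4 (hXW x hxX), rfl⟩
    rw [AlgHom.map_adjoin] at h5
    have h6 : (v⁻¹ : Au F L).toAlgHom x = x := hv'.2.2.2 x hxX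
    rw [h6] at h5
    exact h5

end Pool.Agent.H6Z.Grass
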